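import Pool.Agent.H516.PCF.Stm

/-! Values and Wronskian of the iterates: proof of `S_EVAL`. -/

namespace Pool.Agent.H271.PCF

open Polynomial Pool.Agent.H516.PCF

variable {k : Type} [Field k]

theorem hom_eval (d : ℕ) (R A B : k[X]) (x : k) :
    (hom d R A B).eval x =
      ∑ i ∈ Finset.range (d + 1), R.coeff i * (A.eval x) ^ i * (B.eval x) ^ (d - i) := by
  unfold hom
  rw [eval_finsetSum]
  apply Finset.sum_congr rfl
  intro i _
  rw [eval_mul, eval_mul, eval_C, eval_pow, eval_pow]

theorem pow_div_aux {a b : k} (hb : b ≠ 0) {i d : ℕ} (hi : i ≤ d) :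
    b ^ d * (a / b) ^ i = a ^ i * b ^ (d - i) := by
  rw [div_pow]
  have h1 : b ^ d = b ^ i * b ^ (d - i) := by rw [← pow_add]; congr 1; omega
  have h2 : b ^ i ≠ 0 := pow_ne_zero _ hb
  rw [h1]
  field_simp

theorem hom_eval_ne (d : ℕ) (R A B : k[X]) (hR : R.natDegree ≤ d) (x : k) (hB : B.eval x ≠ 0) :
    (hom d R A B).eval x = B.eval x ^ d * R.eval (A.eval x / B.eval x) := by
  rw [hom_eval, eval_eq_sum_range' (Nat.lt_succ_of_le hR), Finset.mul_sum]
  apply Finset.sum_congr rfl
  intro i hi
  have hi' : i ≤ d := by have := Finset.mem_range.1 hi; omega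
  have := pow_div_aux (a := A.eval x) hB hi'
  calc R.coeff i * (A.eval x) ^ i * (B.eval x) ^ (d - i)
      = R.coeff i * ((A.eval x) ^ i * (B.eval x) ^ (d - i)) := by ring
    _ = R.coeff i * (B.eval x ^ d * (A.eval x / B.eval x) ^ i) := by rw [this]
    _ = _ := by ring

theorem hom_eval_zero (d : ℕ) (R A B : k[X]) (x : k) (hB : B.eval x = 0) :
    (hom d R A B).eval x = R.coeff d * A.eval x ^ d := by
  rw [hom_eval, hB, Finset.sum_range_succ]
  have : ∑ i ∈ Finset.range d, R.coeff i * (A.eval x) ^ i * (0 : k) ^ (d - i) = 0 := by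
    apply Finset.sum_eq_zero
    intro i hi
    have hi' : i < d := Finset.mem_range.1 hi
    rw [zero_pow (by omega), mul_zero]
  rw [this, Nat.sub_self, pow_zero]
  ring

/-- the partial derivative of the homogenisation with respect to the first variable -/
noncomputable def hX (d : ℕ) (R : k[X]) (a b : k) : k :=
  ∑ i ∈ Finset.range (d + 1), R.coeff i * (i : k) * a ^ (i - 1) * b ^ (d - i)

theorem hX_eq (d : ℕ) (hd : 1 ≤ d) (R : k[X]) (hR : R.natDegree ≤ d) (a b : k) (hb : b ≠ 0) :
    hX d R a b = b ^ (d - 1) * (derivative R).eval (a / b) := by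
  rw [derivative_eval, sum_over_range' _ (fun n => by simp) (d + 1) (Nat.lt_succ_of_le hR)]
  unfold hX
  rw [Finset.mul_sum]
  apply Finset.sum_congr rfl
  intro i hi
  have hi' : i ≤ d := by have := Finset.mem_range.1 hi; omega
  rcases Nat.eq_zero_or_pos i with h0 | h0
  · subst h0; simp
  · have := pow_div_aux (a := a) hb (i := i - 1) (d := d - 1) (by omega)
    have e : d - 1 - (i - 1) = d - i := by omega
    rw [e] at this
    calc R.coeff i * (i : k) * a ^ (i - 1) * b ^ (d - i)
        = R.coeff i * (i : k) * (a ^ (i - 1) * b ^ (d - i)) := by ring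
      _ = R.coeff i * (i : k) * (b ^ (d - 1) * (a / b) ^ (i - 1)) := by rw [this]
      _ = _ := by ring

theorem der_pow_aux (A : k[X]) (x : k) (i : ℕ) :
    (derivative (A ^ i)).eval x = (i : k) * (A.eval x) ^ (i - 1) * (derivative A).eval x := by
  rw [derivative_pow]
  simp

theorem euler_term (a b a' b' : k) {i d : ℕ} (hi : i ≤ d) :
    b * ((i : k) * a ^ (i - 1) * a' * b ^ (d - i) + a ^ i * (((d - i : ℕ) : k) * b ^ (d - i - 1) * b')) =
      (i : k) * a ^ (i - 1) * b ^ (d - i) * (a' * b - a * b') + (d : k) * b' * (a ^ i * b ^ (d - i)) := by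
  have h1 : b * (((d - i : ℕ) : k) * b ^ (d - i - 1)) = ((d - i : ℕ) : k) * b ^ (d - i) := by
    rcases Nat.eq_zero_or_pos (d - i) with h0 | h0
    · rw [h0]; simp
    · have : b ^ (d - i) = b ^ (d - i - 1) * b := by rw [← pow_succ]; congr 1; omega
      rw [this]; ring
  have h2 : (i : k) * a ^ (i - 1) * a = (i : k) * a ^ i := by
    rcases Nat.eq_zero_or_pos i with h0 | h0
    · subst h0; simp
    · have : a ^ i = a ^ (i - 1) * a := by rw [← pow_succ]; congr 1; omega
      rw [this]; ring
  have h3 : (d : k) = (i : k) + ((d - i : ℕ) : k) := by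
    rw [← Nat.cast_add]; congr 1; omega
  calc b * ((i : k) * a ^ (i - 1) * a' * b ^ (d - i) + a ^ i * (((d - i : ℕ) : k) * b ^ (d - i - 1) * b'))
      = (i : k) * a ^ (i - 1) * a' * b ^ (d - i) * b
          + a ^ i * b' * (b * (((d - i : ℕ) : k) * b ^ (d - i - 1))) := by ring
    _ = (i : k) * a ^ (i - 1) * a' * b ^ (d - i) * b
          + a ^ i * b' * (((d - i : ℕ) : k) * b ^ (d - i)) := by rw [h1]
    _ = (i : k) * a ^ (i - 1) * b ^ (d - i) * (a' * b - a * b')
          + ((i : k) * a ^ (i - 1) * a) * b' * b ^ (d - i)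
          + a ^ i * b' * (((d - i : ℕ) : k) * b ^ (d - i)) := by ring
    _ = (i : k) * a ^ (i - 1) * b ^ (d - i) * (a' * b - a * b')
          + ((i : k) * a ^ i) * b' * b ^ (d - i)
          + a ^ i * b' * (((d - i : ℕ) : k) * b ^ (d - i)) := by rw [h2]
    _ = _ := by rw [h3]; ring

theorem euler (d : ℕ) (R A B : k[X]) (x : k) :
    B.eval x * (derivative (hom d R A B)).eval x =
      hX d R (A.eval x) (B.eval x) *
        ((derivative A).eval x * B.eval x - A.eval x * (derivative B).eval x)
      + (d : k) * (derivative B).eval x * (hom d R A B).eval x := by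
  rw [hom_eval]
  unfold hom hX
  rw [derivative_sum, eval_finsetSum, Finset.mul_sum, Finset.sum_mul, Finset.mul_sum,
    ← Finset.sum_add_distrib]
  apply Finset.sum_congr rfl
  intro i hi
  have hi' : i ≤ d := by have := Finset.mem_range.1 hi; omega
  rw [mul_assoc, derivative_C_mul, derivative_mul, eval_mul, eval_C, eval_add, eval_mul, eval_mul,
    der_pow_aux, der_pow_aux, eval_pow, eval_pow]
  have := euler_term (A.eval x) (B.eval x) ((derivative A).eval x) ((derivative B).eval x) hi'
  calc B.eval x * (R.coeff i * ((i : k) * A.eval x ^ (i - 1) * (derivative A).eval x * B.eval x ^ (d - i)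
        + A.eval x ^ i * (((d - i : ℕ) : k) * B.eval x ^ (d - i - 1) * (derivative B).eval x)))
      = R.coeff i * (B.eval x * ((i : k) * A.eval x ^ (i - 1) * (derivative A).eval x * B.eval x ^ (d - i)
        + A.eval x ^ i * (((d - i : ℕ) : k) * B.eval x ^ (d - i - 1) * (derivative B).eval x))) := by ring
    _ = _ := by rw [this]; ring

theorem eval : S_EVAL := by
  intro k _ d P Q hN n x
  have hd := hN.two_le
  have hpn : pn d P Q (n + 1) = hom d P (pn d P Q n) (qn d P Q n) := rfl
  have hqn : qn d P Q (n + 1) = hom d Q (pn d P Q n) (qn d P Q n) := rfl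
  rw [hpn, hqn]
  set A := pn d P Q n with hA
  set B := qn d P Q n with hB
  have hP : P.natDegree ≤ d := le_of_eq hN.degP
  have hQ : Q.natDegree ≤ d := le_of_lt hN.degQ
  have hfn : fn d P Q n x = A.eval x / B.eval x := rfl
  rw [hfn]
  refine ⟨fun hb => ⟨hom_eval_ne d P A B hP x hb, hom_eval_ne d Q A B hQ x hb, ?_⟩,
    fun hb => ⟨?_, ?_⟩⟩
  · apply mul_left_cancel₀ hb
    have e1 := euler d P A B x
    have e2 := euler d Q A B x
    have x1 := hX_eq d (by omega) P hP (A.eval x) (B.eval x) hb
    have x2 := hX_eq d (by omega) Q hQ (A.eval x) (B.eval x) hb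
    have v1 := hom_eval_ne d P A B hP x hb
    have v2 := hom_eval_ne d Q A B hQ x hb
    have hw : ∀ U V : k[X], (wr U V).eval x =
        (derivative U).eval x * V.eval x - U.eval x * (derivative V).eval x := by
      intro U V; unfold wr; simp
    have hw' : ∀ (U V : k[X]) (y : k), (wr U V).eval y =
        (derivative U).eval y * V.eval y - U.eval y * (derivative V).eval y := by
      intro U V y; unfold wr; simp
    rw [hw (hom d P A B), hw A B, hw' P Q]
    have hp : B.eval x ^ (d - 1) * B.eval x ^ d = B.eval x * B.eval x ^ (2 * d - 2) := by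
      rw [← pow_add, ← pow_succ']; congr 1; omega
    calc B.eval x * ((derivative (hom d P A B)).eval x * (hom d Q A B).eval x
          - (hom d P A B).eval x * (derivative (hom d Q A B)).eval x)
        = (B.eval x * (derivative (hom d P A B)).eval x) * (hom d Q A B).eval x
          - (hom d P A B).eval x * (B.eval x * (derivative (hom d Q A B)).eval x) := by ring
      _ = (hX d P (A.eval x) (B.eval x) * (hom d Q A B).eval x
            - (hom d P A B).eval x * hX d Q (A.eval x) (B.eval x)) *
          ((derivative A).eval x * B.eval x - A.eval x * (derivative B).eval x) := by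
          rw [e1, e2]; ring
      _ = (B.eval x ^ (d - 1) * B.eval x ^ d) *
          ((derivative P).eval (A.eval x / B.eval x) * Q.eval (A.eval x / B.eval x)
            - P.eval (A.eval x / B.eval x) * (derivative Q).eval (A.eval x / B.eval x)) *
          ((derivative A).eval x * B.eval x - A.eval x * (derivative B).eval x) := by
          rw [x1, x2, v1, v2]; ring
      _ = _ := by rw [hp]; ring
  · rw [hom_eval_zero d Q A B x hb, coeff_eq_zero_of_natDegree_lt hN.degQ, zero_mul]
  · rw [hom_eval_zero d P A B x hb]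
    congr 1
    rw [leadingCoeff, hN.degP]

end Pool.Agent.H271.PCF
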